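import Mathlib
import Pool.Agent.V1199.AdpConseq

namespace Pool.Agent.Results.MP_bb1dce_an.ContainsEllOne

/-- The super alternative Daugavet property: for every unit vector `x` and every weakly open set
`U` meeting the unit sphere, the supremum of `‖x + θ y‖` over `y` in `U` with `‖y‖ ≤ 1` and over
scalars `θ` of modulus one is `2`. -/
def SuperADP (𝕜 : Type*) [RCLike 𝕜] (X : Type*) [NormedAddCommGroup X] [NormedSpace 𝕜 X] : Prop :=
  ∀ x : X, ‖x‖ = 1 → ∀ U : Set (WeakSpace 𝕜 X), IsOpen U →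
    (∃ y : X, ‖y‖ = 1 ∧ toWeakSpace 𝕜 X y ∈ U) →
    IsLUB {r : ℝ | ∃ y : X, ‖y‖ ≤ 1 ∧ toWeakSpace 𝕜 X y ∈ U ∧ ∃ θ : 𝕜, ‖θ‖ = 1 ∧
      r = ‖x + θ • y‖} 2

/-- Some closed subspace of `X` is linearly isomorphic to `ℓ₁`. -/
def ContainsL1 (𝕜 : Type*) [RCLike 𝕜] (X : Type*) [NormedAddCommGroup X] [NormedSpace 𝕜 X] :
    Prop :=
  ∃ Y : Submodule 𝕜 X, IsClosed (Y : Set X) ∧
    Nonempty (lp (fun _ : ℕ => 𝕜) 1 ≃L[𝕜] Y)

/-- Every infinite-dimensional Banach space with the super ADP contains a copy of `ℓ₁`. -/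
theorem result (𝕜 : Type*) [RCLike 𝕜] (X : Type*) [NormedAddCommGroup X] [NormedSpace 𝕜 X]
    [CompleteSpace X] (hinf : ¬ FiniteDimensional 𝕜 X) (hX : SuperADP 𝕜 X) :
    ContainsL1 𝕜 X := by
  have hX' : Pool.Agent.V1199.SuperADP 𝕜 X := hX
  obtain ⟨y, hy⟩ := Pool.Agent.V1199.exists_independent hX' hinf (η := 1 / 8) (by norm_num)
  exact Pool.Agent.V1199.containsL1_of_indep hy

end Pool.Agent.Results.MP_bb1dce_an.ContainsEllOne
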